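import Pool.Agent.TH499.TF.Minor

set_option autoImplicit false

/-! # Sums along edge cuts with at most three edges -/

namespace Pool.Agent.X24.CS

open Finset Pool.Agent.TH499.TF

variable {V E : Type} [Fintype V] [DecidableEq V] [Fintype E] [DecidableEq E] {src dst : E → V}

theorem dlt_compl (Z : Finset V) : dlt src dst Zᶜ = dlt src dst Z := by
  ext e
  rw [mem_dlt, mem_dlt, mem_compl, mem_compl, not_iff_not, not_iff_not]

theorem dv_pw_self {Z : Finset V} {z : V} (hz : z ∈ Z) (f : E → K) :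
    dv (pw Z z ∘ src) (pw Z z ∘ dst) f z = ∑ e ∈ dlt src dst Z, f e := by
  rw [dv_comp, ← sum_dv]
  congr 1
  ext x
  rw [mem_filter]
  unfold pw
  constructor
  · rintro ⟨-, h⟩
    by_contra hx
    rw [if_neg hx] at h
    exact hx (h ▸ hz)
  · intro hx
    exact ⟨mem_univ _, if_pos hx⟩

theorem dv_pw_of_notMem {Z : Finset V} {z : V} (hz : z ∈ Z) (f : E → K) {x : V} (hx : x ∉ Z) :
    dv (pw Z z ∘ src) (pw Z z ∘ dst) f x = dv src dst f x := by
  rw [dv_comp]
  have : (univ.filter fun y => pw Z z y = x) = {x} := by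
    ext y
    rw [mem_filter, mem_singleton]
    unfold pw
    constructor
    · rintro ⟨-, h⟩
      by_cases hy : y ∈ Z
      · rw [if_pos hy] at h
        exact absurd (h ▸ hz) hx
      · rw [if_neg hy] at h
        exact h
    · rintro rfl
      exact ⟨mem_univ _, if_neg hx⟩
  rw [this, sum_singleton]

theorem lm_sum (p q r s : ZMod 2) (S : Finset E) (g : E → K) :
    lm p q r s (∑ e ∈ S, g e) = ∑ e ∈ S, lm p q r s (g e) := by
  induction S using Finset.induction_on with
  | empty => simp [lm_zero]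
  | insert a S ha ih => rw [sum_insert ha, sum_insert ha, lm_add, ih]

theorem lm_dv (p q r s : ZMod 2) (g : E → K) (x : V) :
    lm p q r s (dv src dst g x) = dv src dst (fun e => lm p q r s (g e)) x := by
  unfold dv
  rw [lm_sum]
  refine sum_congr rfl fun e _ => ?_
  unfold jn
  rw [lm_add]
  congr 1
  · split_ifs
    · rfl
    · exact lm_zero _ _ _ _
  · split_ifs
    · rfl
    · exact lm_zero _ _ _ _


theorem lm_two (a a' : K) (h : a ≠ 0) (h' : a' ≠ 0) :
    ∃ p q r s : ZMod 2, lm p q r s a = a' ∧ ∀ x : K, x ≠ 0 → lm p q r s x ≠ 0 := by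
  have h1 : ∀ a : K, a ≠ 0 → ∃ b : K, b ≠ 0 ∧ a + b ≠ 0 := by decide
  obtain ⟨b, h2, h3⟩ := h1 a h
  obtain ⟨b', h2', h3'⟩ := h1 a' h'
  obtain ⟨p, q, r, s, e1, -, e2⟩ := lm_exists a b a' b' h h2 h3 h' h2' h3'
  exact ⟨p, q, r, s, e1, e2⟩

/-- two nowhere zero functions with sum zero on a set with at most three elements, not one -/
theorem match_cut (D : Finset E) (h3 : D.card ≤ 3) (h1 : D.card ≠ 1) (f g : E → K)
    (hf : ∀ e, f e ≠ 0) (hg : ∀ e, g e ≠ 0) (sf : ∑ e ∈ D, f e = 0) (sg : ∑ e ∈ D, g e = 0) :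
    ∃ p q r s : ZMod 2, (∀ e ∈ D, lm p q r s (g e) = f e) ∧
      ∀ x : K, x ≠ 0 → lm p q r s x ≠ 0 := by
  have hc : D.card = 0 ∨ D.card = 2 ∨ D.card = 3 := by omega
  rcases hc with hc | hc | hc
  · rw [card_eq_zero] at hc
    subst hc
    refine ⟨1, 0, 0, 1, fun e he => absurd he (notMem_empty _), fun x hx => ?_⟩
    have : lm 1 0 0 1 x = x := by unfold lm; ext <;> simp
    rwa [this]
  · obtain ⟨a, b, hab, rfl⟩ := card_eq_two.mp hc
    rw [sum_pair hab] at sf sg
    obtain ⟨p, q, r, s, e1, e2⟩ := lm_two (g a) (f a) (hg a) (hf a)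
    refine ⟨p, q, r, s, fun e he => ?_, e2⟩
    rw [mem_insert, mem_singleton] at he
    rcases he with rfl | rfl
    · exact e1
    · rw [← K_eq_of_add sf, ← K_eq_of_add sg]
      exact e1
  · obtain ⟨a, b, c, hab, hac, hbc, rfl⟩ := card_eq_three.mp hc
    rw [sum_insert (by simp [hab, hac]), sum_pair hbc, ← add_assoc] at sf sg
    have ef := K_eq_of_add sf
    have eg := K_eq_of_add sg
    obtain ⟨p, q, r, s, e1, e2, e3⟩ := lm_exists (g a) (g b) (f a) (f b) (hg a) (hg b)
      (by rw [eg]; exact hg c) (hf a) (hf b) (by rw [ef]; exact hf c)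
    refine ⟨p, q, r, s, fun e he => ?_, e3⟩
    rw [mem_insert, mem_insert, mem_singleton] at he
    rcases he with rfl | rfl | rfl
    · exact e1
    · exact e2
    · rw [← ef, ← eg, lm_add, e1, e2]

/-- gluing of flows -/
theorem glue {Z : Finset V} {z z' : V} (hz : z ∈ Z) (hz' : z' ∉ Z)
    (h3 : (dlt src dst Z).card ≤ 3) (h1 : (dlt src dst Z).card ≠ 1)
    (hA : NZ (pw Z z ∘ src) (pw Z z ∘ dst)) (hB : NZ (pw Zᶜ z' ∘ src) (pw Zᶜ z' ∘ dst)) :
    NZ src dst := by
  obtain ⟨f, hf, df⟩ := hA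
  obtain ⟨g, hg, dg⟩ := hB
  have hz'' : z' ∈ Zᶜ := mem_compl.mpr hz'
  have sf : ∑ e ∈ dlt src dst Z, f e = 0 := by rw [← dv_pw_self hz]; exact df z
  have sg : ∑ e ∈ dlt src dst Z, g e = 0 := by
    rw [← dlt_compl, ← dv_pw_self hz'']; exact dg z'
  have kf : ∀ x, x ∉ Z → dv src dst f x = 0 := fun x hx => by
    rw [← dv_pw_of_notMem hz f hx]; exact df x
  have kg : ∀ x, x ∈ Z → dv src dst g x = 0 := fun x hx => by
    rw [← dv_pw_of_notMem hz'' g (fun h => (mem_compl.mp h) hx)]; exact dg x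
  obtain ⟨p, q, r, s, e1, e2⟩ := match_cut _ h3 h1 f g hf hg sf sg
  refine ⟨fun e => if src e ∈ Z ∧ dst e ∈ Z then lm p q r s (g e) else f e, fun e => ?_,
    fun x => ?_⟩
  · dsimp only
    split_ifs
    · exact e2 _ (hg e)
    · exact hf e
  · by_cases hx : x ∈ Z
    · have h4 : dv src dst (fun e => if src e ∈ Z ∧ dst e ∈ Z then lm p q r s (g e) else f e) x =
          dv src dst (fun e => lm p q r s (g e)) x := by
        unfold dv
        refine sum_congr rfl fun e _ => ?_
        dsimp only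
        by_cases h5 : src e ∈ Z ∧ dst e ∈ Z
        · rw [if_pos h5]
        · rw [if_neg h5]
          by_cases h6 : e ∈ dlt src dst Z
          · rw [e1 e h6]
          · rw [mem_dlt, not_not] at h6
            have h7 : src e ∉ Z := fun h => h5 ⟨h, h6.mp h⟩
            have h8 : dst e ∉ Z := fun h => h7 (h6.mpr h)
            have h9 : src e ≠ x := fun h => h7 (h ▸ hx)
            have h10 : dst e ≠ x := fun h => h8 (h ▸ hx)
            unfold jn
            rw [if_neg h9, if_neg h10, if_neg h9, if_neg h10]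
      rw [h4, ← lm_dv, kg x hx, lm_zero]
    · rw [← kf x hx]
      unfold dv
      refine sum_congr rfl fun e _ => ?_
      dsimp only
      by_cases h5 : src e ∈ Z ∧ dst e ∈ Z
      · have h9 : src e ≠ x := fun h => hx (h ▸ h5.1)
        have h10 : dst e ≠ x := fun h => hx (h ▸ h5.2)
        unfold jn
        rw [if_neg h9, if_neg h10, if_neg h9, if_neg h10]
      · rw [if_neg h5]

omit [Fintype V] [Fintype E] [DecidableEq E] in
theorem joins_of_pw {Z : Finset V} {z : V} {e : E} {a b : V}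
    (h : Joins (pw Z z ∘ src) (pw Z z ∘ dst) e a b) :
    ∃ x y, Joins src dst e x y ∧ pw Z z x = a ∧ pw Z z y = b := by
  rcases h with ⟨h1, h2⟩ | ⟨h1, h2⟩
  · exact ⟨src e, dst e, Or.inl ⟨rfl, rfl⟩, h1, h2⟩
  · exact ⟨dst e, src e, Or.inr ⟨rfl, rfl⟩, h2, h1⟩

omit [Fintype V] in
theorem pw_eq {Z : Finset V} {z : V} (hz : z ∈ Z) {x a : V} (h : pw Z z x = a) :
    (x ∉ Z ∧ a = x) ∨ (x ∈ Z ∧ a = z) := by
  unfold pw at h
  by_cases hx : x ∈ Z
  · rw [if_pos hx] at h; exact Or.inr ⟨hx, h.symm⟩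
  · rw [if_neg hx] at h; exact Or.inl ⟨hx, h.symm⟩

/-- the part of `Z` which carries the cut -/
theorem core {Z : Finset V} {z : V} (hz : z ∈ Z) (h3 : (dlt src dst Z).card ≤ 3)
    (hb : ∀ Y, (dlt src dst Y).card ≠ 1) :
    ∃ Z1 ⊆ Z, CC src dst Z1 ∧ ∀ e x y, Joins src dst e x y → x ∈ Z → y ∉ Z → x ∈ Z1 := by
  classical
  by_cases hD : dlt src dst Z = ∅
  · refine ⟨{z}, singleton_subset_iff.mpr hz, ?_, ?_⟩
    · intro A hA hne hA'
      exfalso
      rcases subset_singleton_iff.mp hA with h | h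
      · exact hne.ne_empty h
      · exact hA' h
    · intro e x y hj hx hy
      exfalso
      have : e ∈ dlt src dst Z := by
        rw [mem_dlt]
        rcases hj with ⟨h1, h2⟩ | ⟨h1, h2⟩
        · rw [h1, h2]; exact fun h => hy (h.mp hx)
        · rw [h1, h2]; exact fun h => hy (h.mpr hx)
      rw [hD] at this
      exact notMem_empty _ this
  · obtain ⟨e0, he0⟩ := nonempty_iff_ne_empty.mpr hD
    obtain ⟨x0, y0, hj0, hx0, hy0⟩ : ∃ x y, Joins src dst e0 x y ∧ x ∈ Z ∧ y ∉ Z := by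
      rw [mem_dlt] at he0
      by_cases h1 : src e0 ∈ Z
      · exact ⟨_, _, Or.inl ⟨rfl, rfl⟩, h1, fun h2 => he0 ⟨fun _ => h2, fun _ => h1⟩⟩
      · exact ⟨_, _, Or.inr ⟨rfl, rfl⟩, by
          by_contra h2
          exact he0 ⟨fun h => absurd h h1, fun h => absurd h h2⟩, h1⟩
    let Fm : Finset (Finset V) := Z.powerset.filter fun Y => x0 ∈ Y ∧
      ∀ e x y, Joins src dst e x y → x ∈ Y → y ∈ Z → y ∈ Y
    have hFm : ∀ Y, Y ∈ Fm ↔ Y ⊆ Z ∧ x0 ∈ Y ∧
        ∀ e x y, Joins src dst e x y → x ∈ Y → y ∈ Z → y ∈ Y := by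
      intro Y
      simp only [Fm, mem_filter, mem_powerset]
    obtain ⟨Z1, hZ1, hmin⟩ := exists_min_image Fm card
      ⟨Z, (hFm Z).mpr ⟨Subset.refl _, hx0, fun _ _ _ _ _ h => h⟩⟩
    obtain ⟨hsub, hx1, hcl⟩ := (hFm Z1).mp hZ1
    refine ⟨Z1, hsub, ?_, ?_⟩
    · intro A hA hne hA'
      by_contra hcon
      push Not at hcon
      by_cases hxA : x0 ∈ A
      · have h4 : A ∈ Fm := (hFm A).mpr ⟨hA.trans hsub, hxA, fun e x y hj hx hy => by
          by_contra hyA
          exact hcon e x y hx (hcl e x y hj (hA hx) hy) hyA hj⟩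
        have h5 := hmin A h4
        exact absurd (card_lt_card (Finset.ssubset_iff_subset_ne.mpr ⟨hA, hA'⟩)) (not_lt.mpr h5)
      · have h4 : Z1 \ A ∈ Fm := (hFm _).mpr ⟨sdiff_subset.trans hsub,
          mem_sdiff.mpr ⟨hx1, hxA⟩, fun e x y hj hx hy => by
          rw [mem_sdiff] at hx ⊢
          refine ⟨hcl e x y hj hx.1 hy, fun hyA => ?_⟩
          exact hcon e y x hyA hx.1 hx.2 hj.symm⟩
        have h5 := hmin _ h4
        have h6 := card_sdiff_add_card_eq_card hA
        have h7 := card_pos.mpr hne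
        omega
    · -- the edges of the cut
      have hs1 : dlt src dst Z1 ⊆ dlt src dst Z := by
        intro e he
        rw [mem_dlt] at he ⊢
        intro h
        apply he
        constructor
        · intro h1
          exact hcl e _ _ (Or.inl ⟨rfl, rfl⟩) h1 (h.mp (hsub h1))
        · intro h1
          exact hcl e _ _ (Or.inr ⟨rfl, rfl⟩) h1 (h.mpr (hsub h1))
      have hs2 : dlt src dst (Z \ Z1) ⊆ dlt src dst Z := by
        intro e he
        rw [mem_dlt] at he ⊢
        intro h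
        apply he
        rw [mem_sdiff, mem_sdiff]
        constructor
        · rintro ⟨h1, h2⟩
          exact ⟨h.mp h1, fun h4 => h2 (hcl e _ _ (Or.inr ⟨rfl, rfl⟩) h4 h1)⟩
        · rintro ⟨h1, h2⟩
          exact ⟨h.mpr h1, fun h4 => h2 (hcl e _ _ (Or.inl ⟨rfl, rfl⟩) h4 h1)⟩
      have hdis : Disjoint (dlt src dst Z1) (dlt src dst (Z \ Z1)) := by
        rw [Finset.disjoint_left]
        intro e h4 h5
        rw [mem_dlt] at h4 h5
        rw [mem_sdiff, mem_sdiff] at h5
        by_cases ha : src e ∈ Z1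
        · by_cases hb' : dst e ∈ Z1
          · exact h4 ⟨fun _ => hb', fun _ => ha⟩
          · by_cases hc : dst e ∈ Z
            · exact hb' (hcl e _ _ (Or.inl ⟨rfl, rfl⟩) ha hc)
            · exact h5 ⟨fun h => absurd ha h.2, fun h => absurd h.1 hc⟩
        · by_cases hb' : dst e ∈ Z1
          · by_cases hc : src e ∈ Z
            · exact ha (hcl e _ _ (Or.inr ⟨rfl, rfl⟩) hb' hc)
            · exact h5 ⟨fun h => absurd h.1 hc, fun h => absurd hb' h.2⟩
          · exact h4 ⟨fun h => absurd h ha, fun h => absurd h hb'⟩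
      have hcard := card_le_card (union_subset hs1 hs2)
      rw [card_union_of_disjoint hdis] at hcard
      have he1 : e0 ∈ dlt src dst Z1 := by
        rw [mem_dlt]
        have hy1 : y0 ∉ Z1 := fun h => hy0 (hsub h)
        rcases hj0 with ⟨h1, h2⟩ | ⟨h1, h2⟩
        · rw [h1, h2]; exact fun h => hy1 (h.mp hx1)
        · rw [h1, h2]; exact fun h => hy1 (h.mpr hx1)
      have hp := card_pos.mpr ⟨e0, he1⟩
      have hb1 := hb Z1
      have hb2 := hb (Z \ Z1)
      have hem : dlt src dst (Z \ Z1) = ∅ := card_eq_zero.mp (by omega)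
      intro e x y hj hx hy
      by_contra hxZ
      have : e ∈ dlt src dst (Z \ Z1) := by
        rw [mem_dlt, mem_sdiff, mem_sdiff]
        rcases hj with ⟨h1, h2⟩ | ⟨h1, h2⟩
        · rw [h1, h2]; exact fun h => hy (h.mp ⟨hx, hxZ⟩).1
        · rw [h1, h2]; exact fun h => hy (h.mpr ⟨hx, hxZ⟩).1
      rw [hem] at this
      exact notMem_empty _ this

theorem exists_disj : ∀ i : Pr, ∃ j : Pr, Disjoint i.1 j.1 := by decide

/-- a Petersen minor of a contraction along a small cut gives a Petersen minor -/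
theorem PM_lift {Z : Finset V} {z : V} (hz : z ∈ Z) (h3 : (dlt src dst Z).card ≤ 3)
    (hb : ∀ Y, (dlt src dst Y).card ≠ 1) (h : PM (pw Z z ∘ src) (pw Z z ∘ dst)) :
    PM src dst := by
  obtain ⟨Z1, hsub, hcc, hcr⟩ := core hz h3 hb
  obtain ⟨S, hS1, hS2, hS3⟩ := h
  have hSZ : ∀ i, ∀ w ∈ S i, w ∈ Z → w = z := by
    intro i w hw hwZ
    by_contra hne
    have hno : ∀ e y, ¬ Joins (pw Z z ∘ src) (pw Z z ∘ dst) e w y := by
      intro e y hj
      obtain ⟨x', y', -, h1, -⟩ := joins_of_pw hj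
      rcases pw_eq hz h1 with ⟨h2, h4⟩ | ⟨h2, h4⟩
      · exact h2 (h4 ▸ hwZ)
      · exact hne h4
    obtain ⟨j, hj⟩ := exists_disj i
    obtain ⟨e, x, y, hx, hy, hjo⟩ := hS3 i j hj
    have hxw : x ≠ w := by
      rintro rfl
      exact hno e y hjo
    obtain ⟨e', a, b, ha, -, -, hj'⟩ := hS1 i {w} (singleton_subset_iff.mpr hw)
      (singleton_nonempty _) (fun h => hxw (mem_singleton.mp (h ▸ hx)))
    rw [mem_singleton] at ha
    subst ha
    exact hno e' b hj'
  let T : Pr → Finset V := fun i => (S i).filter (· ∉ Z) ∪ (if z ∈ S i then Z1 else ∅)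
  have hT : ∀ i v, v ∈ T i ↔ (v ∈ S i ∧ v ∉ Z) ∨ (z ∈ S i ∧ v ∈ Z1) := by
    intro i v
    simp only [T, mem_union, mem_filter]
    constructor
    · rintro (h | h)
      · exact Or.inl h
      · by_cases hzi : z ∈ S i
        · rw [if_pos hzi] at h; exact Or.inr ⟨hzi, h⟩
        · rw [if_neg hzi] at h; exact absurd h (notMem_empty _)
    · rintro (h | ⟨h1, h2⟩)
      · exact Or.inl h
      · right; rw [if_pos h1]; exact h2
  refine ⟨T, ?_, ?_, ?_⟩
  · intro i A hA hne hA'
    by_cases hzi : z ∈ S i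
    · by_cases hmix : (∃ a ∈ A, a ∈ Z1) ∧ ∃ a ∈ Z1, a ∉ A
      · obtain ⟨⟨a, ha1, ha2⟩, b, hb1, hb2⟩ := hmix
        obtain ⟨e, x, y, h1, h2, h4, h5⟩ := hcc (A ∩ Z1) inter_subset_right
          ⟨a, mem_inter.mpr ⟨ha1, ha2⟩⟩ (fun h => hb2 (mem_inter.mp (h ▸ hb1)).1)
        rw [mem_inter] at h1
        exact ⟨e, x, y, h1.1, (hT i y).mpr (Or.inr ⟨hzi, h2⟩),
          fun h => h4 (mem_inter.mpr ⟨h, h2⟩), h5⟩
      · rw [not_and_or] at hmix
        push Not at hmix
        rcases hmix with hm | hm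
        · -- `A` does not meet `Z1`
          have hAS : ∀ a ∈ A, a ∈ S i ∧ a ∉ Z := fun a ha => by
            rcases (hT i a).mp (hA ha) with h | h
            · exact h
            · exact absurd h.2 (hm a ha)
          obtain ⟨e, a, b, ha, hb', hbA, hj⟩ := hS1 i A (fun a ha => (hAS a ha).1) hne
            (fun h => (hAS z (h ▸ hzi)).2 hz)
          obtain ⟨x, y, hj', h1, h2⟩ := joins_of_pw hj
          have hxa : a = x ∧ x ∉ Z := by
            rcases pw_eq hz h1 with ⟨h4, h5⟩ | ⟨h4, h5⟩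
            · exact ⟨h5, h4⟩
            · exact absurd hz (h5 ▸ (hAS a ha).2)
          obtain ⟨rfl, hxZ⟩ := hxa
          rcases pw_eq hz h2 with ⟨h4, h5⟩ | ⟨h4, h5⟩
          · subst h5
            exact ⟨e, a, b, ha, (hT i b).mpr (Or.inl ⟨hb', h4⟩), hbA, hj'⟩
          · have hy1 := hcr e y a hj'.symm h4 hxZ
            exact ⟨e, a, y, ha, (hT i y).mpr (Or.inr ⟨hzi, hy1⟩),
              fun h => hm y h hy1, hj'⟩
        · -- `Z1 ⊆ A`
          obtain ⟨s, hs1, hs2⟩ : ∃ s ∈ T i, s ∉ A := by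
            by_contra hcon
            push Not at hcon
            exact hA' (Subset.antisymm hA hcon)
          have hs3 : s ∈ S i ∧ s ∉ Z := by
            rcases (hT i s).mp hs1 with h | h
            · exact h
            · exact absurd (hm s h.2) hs2
          obtain ⟨e, a, b, ha, hb', hbA, hj⟩ := hS1 i (insert z (A.filter (· ∉ Z)))
            (fun a ha => by
              rw [mem_insert, mem_filter] at ha
              rcases ha with rfl | ⟨ha, haZ⟩
              · exact hzi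
              · rcases (hT i a).mp (hA ha) with h | h
                · exact h.1
                · exact absurd (hsub h.2) haZ)
            (insert_nonempty _ _) (fun h => by
              have h1 := h ▸ hs3.1
              rw [mem_insert, mem_filter] at h1
              rcases h1 with h1 | h1
              · exact hs3.2 (h1 ▸ hz)
              · exact hs2 h1.1)
          rw [mem_insert, mem_filter, not_or] at hbA
          have hbZ : b ∉ Z := fun h => hbA.1 (hSZ i b hb' h)
          obtain ⟨x, y, hj', h1, h2⟩ := joins_of_pw hj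
          have hyb : b = y := by
            rcases pw_eq hz h2 with ⟨h4, h5⟩ | ⟨h4, h5⟩
            · exact h5
            · exact absurd hz (h5 ▸ hbZ)
          subst hyb
          have hbA' : b ∉ A := fun h => hbA.2 ⟨h, hbZ⟩
          have hbT : b ∈ T i := (hT i b).mpr (Or.inl ⟨hb', hbZ⟩)
          rcases pw_eq hz h1 with ⟨h4, h5⟩ | ⟨h4, h5⟩
          · subst h5
            rw [mem_insert, mem_filter] at ha
            rcases ha with ha | ha
            · exact absurd hz (ha ▸ h4)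
            · exact ⟨e, a, b, ha.1, hbT, hbA', hj'⟩
          · have hx1 := hcr e x b hj' h4 hbZ
            exact ⟨e, x, b, hm x hx1, hbT, hbA', hj'⟩
    · have hTS : ∀ v, v ∈ T i ↔ v ∈ S i := by
        intro v
        rw [hT]
        constructor
        · rintro (h | h)
          · exact h.1
          · exact absurd h.1 hzi
        · intro h
          exact Or.inl ⟨h, fun hv => hzi (hSZ i v h hv ▸ h)⟩
      have hTS' : T i = S i := ext hTS
      have hSn : ∀ v ∈ S i, v ∉ Z := fun v h hv => hzi (hSZ i v h hv ▸ h)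
      obtain ⟨e, a, b, ha, hb', hbA, hj⟩ := hS1 i A (hTS' ▸ hA) hne (hTS' ▸ hA')
      obtain ⟨x, y, hj', h1, h2⟩ := joins_of_pw hj
      have hxa : a = x := by
        rcases pw_eq hz h1 with ⟨h4, h5⟩ | ⟨h4, h5⟩
        · exact h5
        · exact absurd hz (h5 ▸ hSn a ((hTS a).mp (hA ha)))
      have hyb : b = y := by
        rcases pw_eq hz h2 with ⟨h4, h5⟩ | ⟨h4, h5⟩
        · exact h5
        · exact absurd hz (h5 ▸ hSn b hb')
      subst hxa hyb
      exact ⟨e, a, b, ha, (hTS b).mpr hb', hbA, hj'⟩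
  · intro i j hij
    rw [Finset.disjoint_left]
    intro v hv hv'
    have hd := Finset.disjoint_left.mp (hS2 i j hij)
    rcases (hT i v).mp hv with h1 | h1 <;> rcases (hT j v).mp hv' with h2 | h2
    · exact hd h1.1 h2.1
    · exact h1.2 (hsub h2.2)
    · exact h2.2 (hsub h1.2)
    · exact hd h1.1 h2.1
  · intro i j hij
    obtain ⟨e, a, b, ha, hb', hj⟩ := hS3 i j hij
    obtain ⟨x, y, hj', h1, h2⟩ := joins_of_pw hj
    have hd := Finset.disjoint_left.mp (hS2 i j (pr_ne i j hij))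
    rcases pw_eq hz h1 with ⟨h4, h5⟩ | ⟨h4, h5⟩ <;> rcases pw_eq hz h2 with ⟨h6, h7⟩ | ⟨h6, h7⟩
    · subst h5 h7
      exact ⟨e, a, b, (hT i a).mpr (Or.inl ⟨ha, h4⟩), (hT j b).mpr (Or.inl ⟨hb', h6⟩), hj'⟩
    · subst h5
      exact ⟨e, a, y, (hT i a).mpr (Or.inl ⟨ha, h4⟩),
        (hT j y).mpr (Or.inr ⟨h7 ▸ hb', hcr e y a hj'.symm h6 h4⟩), hj'⟩
    · subst h7
      exact ⟨e, x, b, (hT i x).mpr (Or.inr ⟨h5 ▸ ha, hcr e x b hj' h4 h6⟩),
        (hT j b).mpr (Or.inl ⟨hb', h6⟩), hj'⟩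
    · subst h5 h7
      exact absurd hb' (hd ha)

/-- the closure of a class under sums along cuts with at most three edges -/
inductive Built (B : (E → V) → (E → V) → Prop) : (E → V) → (E → V) → Prop
  | base (src dst : E → V) : B src dst → Built B src dst
  | sum (src dst : E → V) (Z : Finset V) (z z' : V) : z ∈ Z → z' ∉ Z →
      (dlt src dst Z).card ≤ 3 → Built B (pw Z z ∘ src) (pw Z z ∘ dst) →
      Built B (pw Zᶜ z' ∘ src) (pw Zᶜ z' ∘ dst) → Built B src dst

theorem Built.nz {B : (E → V) → (E → V) → Prop}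
    (hB : ∀ src dst : E → V, B src dst → (∀ Y, (dlt src dst Y).card ≠ 1) → ¬ PM src dst →
      NZ src dst) {src dst : E → V} (h : Built B src dst)
    (h1 : ∀ Y, (dlt src dst Y).card ≠ 1) (hP : ¬ PM src dst) : NZ src dst := by
  induction h with
  | base src dst h => exact hB src dst h h1 hP
  | sum src dst Z z z' hz hz' h3 _ _ ih1 ih2 =>
    refine glue hz hz' h3 (h1 Z) (ih1 (fun Y => ?_) ?_) (ih2 (fun Y => ?_) ?_)
    · rw [dlt_comp]; exact h1 _
    · exact fun h => hP (PM_lift hz h3 h1 h)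
    · rw [dlt_comp]; exact h1 _
    · exact fun h => hP (PM_lift (mem_compl.mpr hz') (by rw [dlt_compl]; exact h3) h1 h)

end Pool.Agent.X24.CS
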