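import Mathlib

/-!
The real part of `L'/L(1/2, χ)` is determined by the functional equation.
-/

set_option autoImplicit false
open Complex DirichletCharacter Filter Topology

namespace Pool.Agent.X24

variable {q : ℕ} [NeZero q]

theorem LSeries_conj (χ : DirichletCharacter ℂ q) (s : ℂ) :
    LSeries (fun n : ℕ => χ⁻¹ n) ((starRingEnd ℂ) s) = (starRingEnd ℂ) (LSeries (fun n : ℕ => χ n) s) := by
  unfold LSeries
  rw [Complex.conj_tsum]
  refine tsum_congr fun n => ?_
  rcases eq_or_ne n 0 with rfl | hn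
  · simp
  · rw [LSeries.term_of_ne_zero hn, LSeries.term_of_ne_zero hn, map_div₀]
    congr 1
    · rw [← MulChar.star_apply']; rfl
    · rw [cpow_conj _ _ (by rw [natCast_arg]; positivity), conj_natCast]

theorem LFunction_conj {χ : DirichletCharacter ℂ q} (hχ : χ ≠ 1) (s : ℂ) :
    LFunction χ⁻¹ s = (starRingEnd ℂ) (LFunction χ ((starRingEnd ℂ) s)) := by
  have hχ' : χ⁻¹ ≠ 1 := inv_ne_one.mpr hχ
  have h1 : AnalyticOnNhd ℂ (LFunction χ⁻¹) Set.univ :=
    (differentiable_LFunction hχ').differentiableOn.analyticOnNhd isOpen_univ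
  have h2 : AnalyticOnNhd ℂ (fun s => (starRingEnd ℂ) (LFunction χ ((starRingEnd ℂ) s))) Set.univ := by
    have : Differentiable ℂ (fun s => (starRingEnd ℂ) (LFunction χ ((starRingEnd ℂ) s))) := by
      intro s
      exact (differentiableAt_conj_conj_iff (f := LFunction χ) (x := s)).mpr (differentiable_LFunction hχ _)
    exact this.differentiableOn.analyticOnNhd isOpen_univ
  have h3 : LFunction χ⁻¹ =ᶠ[𝓝 (2 : ℂ)] (fun s => (starRingEnd ℂ) (LFunction χ ((starRingEnd ℂ) s))) := by
    have : ∀ᶠ s : ℂ in 𝓝 (2 : ℂ), 1 < s.re :=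
      continuous_re.continuousAt.eventually_const_lt (by norm_num)
    filter_upwards [this] with s hs
    have hs' : 1 < ((starRingEnd ℂ) s).re := by simpa using hs
    rw [LFunction_eq_LSeries _ hs, LFunction_eq_LSeries _ hs']
    have := LSeries_conj χ ((starRingEnd ℂ) s)
    rw [conj_conj] at this
    exact this
  exact congrFun (h1.eq_of_eventuallyEq h2 h3) s

theorem deriv_LFunction_conj {χ : DirichletCharacter ℂ q} (hχ : χ ≠ 1) (s : ℂ) :
    deriv (LFunction χ⁻¹) s = (starRingEnd ℂ) (deriv (LFunction χ) ((starRingEnd ℂ) s)) := by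
  have : LFunction χ⁻¹ = (starRingEnd ℂ) ∘ LFunction χ ∘ (starRingEnd ℂ) :=
    funext fun s => LFunction_conj hχ s
  rw [this, deriv_conj_conj]
  rfl

/-- the parity of `χ` decides the gamma factor: a shift by `0` or `1` -/
theorem gammaFactor_cases (χ : DirichletCharacter ℂ q) :
    (gammaFactor χ = fun s => Gammaℝ s) ∧ (gammaFactor χ⁻¹ = fun s => Gammaℝ s) ∨
    (gammaFactor χ = fun s => Gammaℝ (s + 1)) ∧ (gammaFactor χ⁻¹ = fun s => Gammaℝ (s + 1)) := by
  rcases χ.even_or_odd with h | h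
  · left
    have h' : χ⁻¹.Even := by
      have : χ (-1) = 1 := h
      show χ⁻¹ (-1) = 1
      rw [← MulChar.star_apply', this]; simp
    exact ⟨funext fun s => h.gammaFactor_def s, funext fun s => h'.gammaFactor_def s⟩
  · right
    have h' : χ⁻¹.Odd := by
      have : χ (-1) = -1 := h
      show χ⁻¹ (-1) = -1
      rw [← MulChar.star_apply', this]; simp
    exact ⟨funext fun s => h.gammaFactor_def s, funext fun s => h'.gammaFactor_def s⟩

theorem gammaFactor_ne_zero (χ : DirichletCharacter ℂ q) {s : ℂ} (hs : 0 < s.re) :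
    gammaFactor χ s ≠ 0 := by
  rcases gammaFactor_cases χ with ⟨h, _⟩ | ⟨h, _⟩ <;> rw [h]
  · exact Gammaℝ_ne_zero_of_re_pos hs
  · exact Gammaℝ_ne_zero_of_re_pos (by simp; linarith)

theorem differentiableAt_Gammaℝ {s : ℂ} (hs : 0 < s.re) : DifferentiableAt ℂ Gammaℝ s := by
  have h1 : DifferentiableAt ℂ (fun s : ℂ => (Gammaℝ s)⁻¹) s := differentiable_Gammaℝ_inv s
  have h2 := h1.fun_inv (inv_ne_zero (Gammaℝ_ne_zero_of_re_pos hs))
  simpa using h2

theorem differentiableAt_gammaFactor (χ : DirichletCharacter ℂ q) {s : ℂ} (hs : 0 < s.re) :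
    DifferentiableAt ℂ (gammaFactor χ) s := by
  rcases gammaFactor_cases χ with ⟨h, _⟩ | ⟨h, _⟩ <;> rw [h]
  · exact differentiableAt_Gammaℝ hs
  · have h1 : DifferentiableAt ℂ Gammaℝ (s + 1) :=
      differentiableAt_Gammaℝ (by simp; linarith)
    exact DifferentiableAt.comp s (f := fun s : ℂ => s + 1) h1 (by fun_prop)

theorem completed_eq {χ : DirichletCharacter ℂ q} (hχ : χ ≠ 1) :
    completedLFunction χ =ᶠ[𝓝 (1 / 2 : ℂ)] fun s => LFunction χ s * gammaFactor χ s := by
  have : ∀ᶠ s : ℂ in 𝓝 (1 / 2 : ℂ), 0 < s.re :=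
    continuous_re.continuousAt.eventually_const_lt (by norm_num)
  filter_upwards [this] with s hs
  rw [LFunction_eq_completed_div_gammaFactor χ s (Or.inr (hχ ∘ level_one' _)),
    div_mul_cancel₀ _ (gammaFactor_ne_zero χ hs)]

theorem logDeriv_completed {χ : DirichletCharacter ℂ q} (hχ : χ ≠ 1) (h0 : LFunction χ (1 / 2) ≠ 0) :
    logDeriv (completedLFunction χ) (1 / 2) =
      logDeriv (LFunction χ) (1 / 2) + logDeriv (gammaFactor χ) (1 / 2) := by
  rw [(logDeriv_congr_nhds (completed_eq hχ)).eq_of_nhds]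
  exact logDeriv_mul (1 / 2 : ℂ) h0 (gammaFactor_ne_zero χ (by norm_num))
    (differentiable_LFunction hχ _) (differentiableAt_gammaFactor χ (by norm_num))

/-- `L'/L(1/2, χ) + L'/L(1/2, χ⁻¹) = - log q - 2 γ'/γ(1/2)` -/
theorem logDeriv_sum {χ : DirichletCharacter ℂ q} (hp : χ.IsPrimitive) (hχ : χ ≠ 1)
    (h0 : LFunction χ (1 / 2) ≠ 0) :
    logDeriv (LFunction χ) (1 / 2) + logDeriv (LFunction χ⁻¹) (1 / 2) =
      - Complex.log q - 2 * logDeriv (gammaFactor χ) (1 / 2) := by
  have hχ' : χ⁻¹ ≠ 1 := inv_ne_one.mpr hχ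
  have hq : (q : ℂ) ≠ 0 := by exact_mod_cast NeZero.ne q
  have hc : completedLFunction χ (1 / 2) ≠ 0 := by
    rw [(completed_eq hχ).eq_of_nhds]
    exact mul_ne_zero h0 (gammaFactor_ne_zero χ (by norm_num))
  have hFE := hp.completedLFunction_one_sub
  have hhalf : (1 : ℂ) - 1 / 2 = 1 / 2 := by norm_num
  have h1 := hFE (1 / 2)
  rw [hhalf, sub_self, cpow_zero, one_mul] at h1
  have hW : rootNumber χ ≠ 0 := fun h => hc (by rw [h1, h, zero_mul])
  have hc' : completedLFunction χ⁻¹ (1 / 2) ≠ 0 := fun h => hc (by rw [h1, h, mul_zero])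
  have h0' : LFunction χ⁻¹ (1 / 2) ≠ 0 := by
    intro h
    apply hc'
    rw [(completed_eq hχ').eq_of_nhds, h, zero_mul]
  -- logarithmic derivative of both sides
  have hL : logDeriv (fun s => completedLFunction χ (1 - s)) (1 / 2) =
      - logDeriv (completedLFunction χ) (1 / 2) := by
    rw [logDeriv_apply, logDeriv_apply, deriv_comp_const_sub, hhalf, neg_div]
  have hR : logDeriv (fun s : ℂ => (q : ℂ) ^ (s - 1 / 2) * rootNumber χ * completedLFunction χ⁻¹ s) (1 / 2) =
      Complex.log q + logDeriv (completedLFunction χ⁻¹) (1 / 2) := by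
    have hd : HasDerivAt (fun s : ℂ => (q : ℂ) ^ (s - 1 / 2)) (Complex.log q) (1 / 2) := by
      have h := (HasDerivAt.const_cpow (c := (q : ℂ)) ((hasDerivAt_id (1 / 2 : ℂ)).sub_const (1 / 2)) (Or.inl hq))
      simpa using h
    rw [logDeriv_mul (1 / 2 : ℂ) (by simpa using hW) hc' ((hd.differentiableAt).mul_const _)
      (differentiable_completedLFunction hχ' _), logDeriv_mul_const _ _ hW]
    congr 1
    rw [logDeriv_apply, hd.deriv]
    simp
  have hEq : (fun s => completedLFunction χ (1 - s)) =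
      (fun s : ℂ => (q : ℂ) ^ (s - 1 / 2) * rootNumber χ * completedLFunction χ⁻¹ s) := funext hFE
  rw [hEq, hR] at hL
  rw [logDeriv_completed hχ h0, logDeriv_completed hχ' h0'] at hL
  have hg : gammaFactor χ⁻¹ = gammaFactor χ := by
    rcases gammaFactor_cases χ with ⟨h, h'⟩ | ⟨h, h'⟩ <;> rw [h, h']
  rw [hg] at hL
  linear_combination hL

/-- The real part of `L'/L(1/2, χ)` does not depend much on `χ`. -/
theorem re_logDeriv {χ : DirichletCharacter ℂ q} (hp : χ.IsPrimitive) (hχ : χ ≠ 1)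
    (h0 : LFunction χ (1 / 2) ≠ 0) :
    (deriv (LFunction χ) (1 / 2) / LFunction χ (1 / 2)).re =
      - Real.log q / 2 - (logDeriv (gammaFactor χ) (1 / 2)).re := by
  have h := logDeriv_sum hp hχ h0
  have h2 : logDeriv (LFunction χ⁻¹) (1 / 2) = (starRingEnd ℂ) (logDeriv (LFunction χ) (1 / 2)) := by
    have hh : (starRingEnd ℂ) (1 / 2 : ℂ) = 1 / 2 := by
      rw [map_div₀, map_one, map_ofNat]
    rw [logDeriv_apply, logDeriv_apply, map_div₀, deriv_LFunction_conj hχ, LFunction_conj hχ, hh]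
  rw [h2] at h
  have h3 := congrArg Complex.re h
  rw [← logDeriv_apply]
  have h4 : (Complex.log q).re = Real.log q := by
    rw [Complex.log_re]; simp
  simp only [add_re, conj_re, sub_re, neg_re, mul_re, h4] at h3
  norm_num at h3
  linarith

end Pool.Agent.X24
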