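import Mathlib

set_option autoImplicit false

/-! # Quadruple covers by six even subgraphs: closure properties -/

namespace Pool.Agent.X24.QC

open Finset

section
variable {E : Type} [Fintype E]

open Classical in
/-- the sum of the values of `g` around `x` -/
noncomputable def bd {V : Type} (src dst : E → V) (g : E → ZMod 2) (x : V) : ZMod 2 :=
  ∑ e, ((if src e = x then g e else 0) + (if dst e = x then g e else 0))

/-- a quadruple cover by six even subgraphs -/
def QC {V : Type} (src dst : E → V) : Prop :=
  ∃ f : Fin 6 → E → ZMod 2, (∀ i x, bd src dst (f i) x = 0) ∧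
    ∀ e, (univ.filter fun i => f i e = 1).card = 4

theorem z2 (a : ZMod 2) : a + a = 0 := by revert a; decide

theorem z2_eq {a b : ZMod 2} (h : a + b = 0) : a = b := by revert a b; decide

open Classical in
/-- contraction of `Z` to `z` -/
noncomputable def contract {V : Type} (Z : Set V) (z v : V) : V := if v ∈ Z then z else v

theorem contract_eq_self {V : Type} {Z : Set V} {z : V} (hz : z ∈ Z) (v : V) :
    contract Z z v = z ↔ v ∈ Z := by
  unfold contract
  by_cases h : v ∈ Z
  · simp [h]
  · rw [if_neg h]
    exact ⟨fun h' => absurd (h' ▸ hz) h, fun h' => absurd h' h⟩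

theorem contract_eq_of_notMem {V : Type} {Z : Set V} {z : V} (hz : z ∈ Z) (v : V) {x : V}
    (hx : x ∉ Z) : contract Z z v = x ↔ v = x := by
  unfold contract
  by_cases h : v ∈ Z
  · rw [if_pos h]
    constructor
    · intro h'; exact absurd (h' ▸ hz) hx
    · intro h'; exact absurd (h' ▸ h) hx
  · rw [if_neg h]

open Classical in
theorem bd_contract_self {V : Type} (src dst : E → V) {Z : Set V} {z : V} (hz : z ∈ Z)
    (g : E → ZMod 2) : bd (contract Z z ∘ src) (contract Z z ∘ dst) g z =
      ∑ e ∈ univ.filter (fun e => ¬ (src e ∈ Z ↔ dst e ∈ Z)), g e := by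
  unfold bd
  rw [sum_filter]
  refine sum_congr rfl fun e _ => ?_
  simp only [Function.comp, contract_eq_self hz]
  by_cases h1 : src e ∈ Z <;> by_cases h2 : dst e ∈ Z <;> simp [h1, h2, z2]

theorem bd_contract_of_notMem {V : Type} (src dst : E → V) {Z : Set V} {z : V} (hz : z ∈ Z)
    (g : E → ZMod 2) {x : V} (hx : x ∉ Z) :
    bd (contract Z z ∘ src) (contract Z z ∘ dst) g x = bd src dst g x := by
  classical
  unfold bd
  refine sum_congr rfl fun e _ => ?_
  simp only [Function.comp, contract_eq_of_notMem hz _ hx]

/-- identification of vertices -/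
theorem QC.map {V W : Type} {src dst : E → V} (c : V → W) (h : QC src dst) :
    QC (c ∘ src) (c ∘ dst) := by
  classical
  obtain ⟨f, h1, h2⟩ := h
  refine ⟨f, fun i y => ?_, h2⟩
  have key : bd (c ∘ src) (c ∘ dst) (f i) y =
      ∑ x ∈ (univ.image src ∪ univ.image dst).filter (fun x => c x = y),
        bd src dst (f i) x := by
    unfold bd
    rw [sum_comm]
    refine sum_congr rfl fun e _ => ?_
    rw [sum_add_distrib, sum_ite_eq, sum_ite_eq]
    simp only [Function.comp, mem_filter, mem_union, mem_image, mem_univ, true_and]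
    congr 1
    · have : (∃ a, src a = src e) ∨ ∃ a, dst a = src e := Or.inl ⟨e, rfl⟩
      simp [this]
    · have : (∃ a, src a = dst e) ∨ ∃ a, dst a = dst e := Or.inr ⟨e, rfl⟩
      simp [this]
  rw [key]
  exact sum_eq_zero fun x _ => h1 i x

open Classical in
/-- the edges in `D` become loops -/
noncomputable def drop {V : Type} (src dst : E → V) (D : Set E) (e : E) : V :=
  if e ∈ D then src e else dst e

/-- edge-disjoint unions -/
theorem QC.union {V : Type} {src dst : E → V} (D : Set E) (h : QC src (drop src dst D))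
    (h' : QC src (drop src dst Dᶜ)) : QC src dst := by
  classical
  obtain ⟨f, h1, h2⟩ := h
  obtain ⟨g, k1, k2⟩ := h'
  refine ⟨fun i e => if e ∈ D then g i e else f i e, fun i x => ?_, fun e => ?_⟩
  · have e1 := h1 i x
    have e2 := k1 i x
    have e3 : bd src dst (fun e => if e ∈ D then g i e else f i e) x =
        bd src (drop src dst D) (f i) x + bd src (drop src dst Dᶜ) (g i) x := by
      unfold bd
      rw [← sum_add_distrib]
      refine sum_congr rfl fun e _ => ?_
      unfold drop
      by_cases h3 : e ∈ D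
      · have h4 : e ∉ Dᶜ := fun h => h h3
        rw [if_pos h3, if_neg h4]
        dsimp only
        rw [if_pos h3, z2, zero_add]
      · have h4 : e ∈ Dᶜ := h3
        rw [if_neg h3, if_pos h4]
        dsimp only
        rw [if_neg h3, z2, add_zero]
    rw [e3, e1, e2, add_zero]
  · by_cases h3 : e ∈ D
    · simp only [if_pos h3]; exact k2 e
    · simp only [if_neg h3]; exact h2 e

/-- two functions with the same fibre sizes differ by a permutation -/
theorem exists_perm {T : Type} [DecidableEq T] (τ σ : Fin 6 → T)
    (h : ∀ t, (univ.filter fun i => τ i = t).card = (univ.filter fun i => σ i = t).card) :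
    ∃ π : Equiv.Perm (Fin 6), ∀ i, σ (π i) = τ i := by
  have e : ∀ t, {i // τ i = t} ≃ {i // σ i = t} := fun t =>
    Fintype.equivOfCardEq (by rw [Fintype.card_subtype, Fintype.card_subtype]; exact h t)
  refine ⟨(Equiv.sigmaFiberEquiv τ).symm.trans
    ((Equiv.sigmaCongrRight e).trans (Equiv.sigmaFiberEquiv σ)), fun i => ?_⟩
  exact (e (τ i) ⟨i, rfl⟩).2

/-- two pairs of four-element sets with symmetric difference of size four -/
theorem perm_pair (A B A' B' : Finset (Fin 6)) (h1 : A.card = 4) (h2 : B.card = 4)
    (h3 : (A ∩ B).card = 2) (h1' : A'.card = 4) (h2' : B'.card = 4) (h3' : (A' ∩ B').card = 2) :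
    ∃ π : Equiv.Perm (Fin 6), ∀ i, (π i ∈ A' ↔ i ∈ A) ∧ (π i ∈ B' ↔ i ∈ B) := by
  have cnt : ∀ A B : Finset (Fin 6), A.card = 4 → B.card = 4 → (A ∩ B).card = 2 →
      ∀ t : Bool × Bool, (univ.filter fun i => (decide (i ∈ A), decide (i ∈ B)) = t).card =
        if t.1 || t.2 then 2 else 0 := by
    intro A B h1 h2 h3 t
    have k1 := card_sdiff_add_card_inter A B
    have k2 := card_sdiff_add_card_inter B A
    rw [inter_comm B A] at k2
    have k3 := card_union_add_card_inter A B
    have k4 : (A ∪ B).card = (univ : Finset (Fin 6)).card := by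
      rw [card_univ, Fintype.card_fin]; omega
    have k5 := eq_of_subset_of_card_le (subset_univ (A ∪ B)) (le_of_eq k4.symm)
    rcases t with ⟨a, b⟩
    cases a <;> cases b
    · have : (univ.filter fun i => (decide (i ∈ A), decide (i ∈ B)) = (false, false)) = ∅ := by
        ext i
        have hi : i ∈ A ∪ B := by rw [k5]; exact mem_univ _
        rw [mem_union] at hi
        simp only [mem_filter, mem_univ, true_and, Prod.mk.injEq, decide_eq_false_iff_not,
          notMem_empty, iff_false, not_and, not_not]
        intro h; rcases hi with h' | h'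
        · exact absurd h' h
        · exact h'
      rw [this]; rfl
    · have : (univ.filter fun i => (decide (i ∈ A), decide (i ∈ B)) = (false, true)) = B \ A := by
        ext i; simp [and_comm]
      rw [this]; simp; omega
    · have : (univ.filter fun i => (decide (i ∈ A), decide (i ∈ B)) = (true, false)) = A \ B := by
        ext i; simp
      rw [this]; simp; omega
    · have : (univ.filter fun i => (decide (i ∈ A), decide (i ∈ B)) = (true, true)) = A ∩ B := by
        ext i; simp
      rw [this]; simp; omega
  obtain ⟨π, hπ⟩ := exists_perm (fun i => (decide (i ∈ A), decide (i ∈ B)))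
    (fun i => (decide (i ∈ A'), decide (i ∈ B'))) (fun t => by
      rw [cnt A B h1 h2 h3, cnt A' B' h1' h2' h3'])
  refine ⟨π, fun i => ?_⟩
  have h := hπ i
  simp only [Prod.mk.injEq, decide_eq_decide] at h
  exact h

theorem perm_one (A A' : Finset (Fin 6)) (h : A.card = A'.card) :
    ∃ π : Equiv.Perm (Fin 6), ∀ i, (π i ∈ A' ↔ i ∈ A) := by
  obtain ⟨π, hπ⟩ := exists_perm (fun i => decide (i ∈ A)) (fun i => decide (i ∈ A')) (fun t => by
    cases t
    · have e1 : (univ.filter fun i => decide (i ∈ A) = false) = Aᶜ := by ext i; simp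
      have e2 : (univ.filter fun i => decide (i ∈ A') = false) = A'ᶜ := by ext i; simp
      rw [e1, e2, card_compl, card_compl, h]
    · have e1 : (univ.filter fun i => decide (i ∈ A) = true) = A := by ext i; simp
      have e2 : (univ.filter fun i => decide (i ∈ A') = true) = A' := by ext i; simp
      rw [e1, e2, h])
  refine ⟨π, fun i => ?_⟩
  have h := hπ i
  simp only [decide_eq_decide] at h
  exact h

theorem one_or (a : ZMod 2) : a = 1 ∨ a = 0 := by revert a; decide

theorem eq_of_iff {a b : ZMod 2} (h : a = 1 ↔ b = 1) : a = b := by revert a b; decide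

/-- matching of two colourings of a cut with at most three edges -/
theorem match_cut [DecidableEq E] (D : Finset E) (h3 : D.card ≤ 3) (f g : Fin 6 → E → ZMod 2)
    (hf : ∀ e, (univ.filter fun i => f i e = 1).card = 4)
    (hg : ∀ e, (univ.filter fun i => g i e = 1).card = 4)
    (sf : ∀ i, ∑ e ∈ D, f i e = 0) (sg : ∀ i, ∑ e ∈ D, g i e = 0) :
    ∃ π : Equiv.Perm (Fin 6), ∀ e ∈ D, ∀ i, g (π i) e = f i e := by
  have hc : D.card = 0 ∨ D.card = 1 ∨ D.card = 2 ∨ D.card = 3 := by omega
  rcases hc with hc | hc | hc | hc
  · rw [card_eq_zero] at hc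
    subst hc
    exact ⟨1, fun e he => absurd he (notMem_empty _)⟩
  · obtain ⟨a, rfl⟩ := card_eq_one.mp hc
    exfalso
    have h := hf a
    have : (univ.filter fun i => f i a = 1) = ∅ := by
      ext i
      have h0 := sf i
      rw [sum_singleton] at h0
      simp [h0]
    rw [this] at h
    simp at h
  · obtain ⟨a, b, hab, rfl⟩ := card_eq_two.mp hc
    obtain ⟨π, hπ⟩ := perm_one (univ.filter fun i => f i a = 1) (univ.filter fun i => g i a = 1)
      (by rw [hf, hg])
    have h1 : ∀ i, g (π i) a = f i a := fun i => by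
      have h := hπ i
      rw [mem_filter, mem_filter] at h
      simp only [mem_univ, true_and] at h
      exact eq_of_iff h
    refine ⟨π, fun e he i => ?_⟩
    rw [mem_insert, mem_singleton] at he
    rcases he with rfl | rfl
    · exact h1 i
    · have e1 := sf i
      have e2 := sg (π i)
      rw [sum_pair hab] at e1 e2
      rw [← z2_eq e1, ← z2_eq e2]
      exact h1 i
  · obtain ⟨a, b, c, hab, hac, hbc, rfl⟩ := card_eq_three.mp hc
    have s3 : ∀ h : E → ZMod 2, ∑ e ∈ ({a, b, c} : Finset E), h e = 0 → h c = h a + h b := by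
      intro h h0
      rw [sum_insert (by simp [hab, hac]), sum_pair hbc, ← add_assoc] at h0
      exact (z2_eq h0).symm
    have cap : ∀ f : Fin 6 → E → ZMod 2, (∀ e, (univ.filter fun i => f i e = 1).card = 4) →
        (∀ i, f i c = f i a + f i b) →
        ((univ.filter fun i => f i a = 1) ∩ (univ.filter fun i => f i b = 1)).card = 2 := by
      intro f hf hs
      set A := univ.filter fun i => f i a = 1 with hA
      set B := univ.filter fun i => f i b = 1 with hB
      have k1 := card_sdiff_add_card_inter A B
      have k2 := card_sdiff_add_card_inter B A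
      rw [inter_comm B A] at k2
      have k3 : (univ.filter fun i => f i c = 1) = (A \ B) ∪ (B \ A) := by
        ext i
        rw [mem_filter, mem_union, mem_sdiff, mem_sdiff, hA, hB, mem_filter, mem_filter, hs i]
        rcases one_or (f i a) with h1 | h1 <;> rcases one_or (f i b) with h2 | h2 <;>
          simp [h1, h2, z2]
      have k4 : Disjoint (A \ B) (B \ A) := by
        rw [Finset.disjoint_left]
        intro i h1 h2
        rw [mem_sdiff] at h1 h2
        exact h1.2 h2.1
      have k5 := hf c
      rw [k3, card_union_of_disjoint k4] at k5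
      have k6 := hf a
      have k7 := hf b
      rw [← hA] at k6
      rw [← hB] at k7
      omega
    obtain ⟨π, hπ⟩ := perm_pair _ _ _ _ (hf a) (hf b) (cap f hf fun i => s3 (f i) (sf i))
      (hg a) (hg b) (cap g hg fun i => s3 (g i) (sg i))
    have h1 : ∀ i, g (π i) a = f i a := fun i => by
      have h := (hπ i).1
      rw [mem_filter, mem_filter] at h
      simp only [mem_univ, true_and] at h
      exact eq_of_iff h
    have h2 : ∀ i, g (π i) b = f i b := fun i => by
      have h := (hπ i).2
      rw [mem_filter, mem_filter] at h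
      simp only [mem_univ, true_and] at h
      exact eq_of_iff h
    refine ⟨π, fun e he i => ?_⟩
    rw [mem_insert, mem_insert, mem_singleton] at he
    rcases he with rfl | rfl | rfl
    · exact h1 i
    · exact h2 i
    · rw [s3 (f i) (sf i), s3 (g (π i)) (sg (π i)), h1, h2]

/-- sums along cuts with at most three edges -/
theorem QC.sum {V : Type} {src dst : E → V} (Z : Set V) {z z' : V} (hz : z ∈ Z) (hz' : z' ∉ Z)
    (h3 : {e | ¬ (src e ∈ Z ↔ dst e ∈ Z)}.ncard ≤ 3)
    (hA : QC (contract Z z ∘ src) (contract Z z ∘ dst))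
    (hB : QC (contract Zᶜ z' ∘ src) (contract Zᶜ z' ∘ dst)) : QC src dst := by
  classical
  obtain ⟨f, f1, f2⟩ := hA
  obtain ⟨g, g1, g2⟩ := hB
  have hz'' : z' ∈ Zᶜ := hz'
  have hD : (univ.filter fun e => ¬ (src e ∈ Z ↔ dst e ∈ Z)).card ≤ 3 := by
    rw [Set.ncard_eq_toFinset_card'] at h3
    refine le_trans (le_of_eq ?_) h3
    congr 1
    ext e
    simp
  have hD' : (univ.filter fun e => ¬ (src e ∈ Zᶜ ↔ dst e ∈ Zᶜ)) =
      univ.filter fun e => ¬ (src e ∈ Z ↔ dst e ∈ Z) := by
    ext e
    simp only [mem_filter, mem_univ, true_and, Set.mem_compl_iff, not_iff_not]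
  obtain ⟨π, hπ⟩ := match_cut _ hD f g f2 g2
    (fun i => by rw [← bd_contract_self src dst hz]; exact f1 i z)
    (fun i => by
      have h := bd_contract_self src dst hz'' (g i)
      rw [g1 i z'] at h
      rw [← hD']
      refine Eq.trans (sum_congr ?_ fun _ _ => rfl) h.symm
      ext e
      simp)
  refine ⟨fun i e => if src e ∈ Z ∧ dst e ∈ Z then g (π i) e else f i e, fun i x => ?_,
    fun e => ?_⟩
  · by_cases hx : x ∈ Z
    · rw [← g1 (π i) x, bd_contract_of_notMem src dst hz'' _ (fun h => h hx)]
      unfold bd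
      refine sum_congr rfl fun e _ => ?_
      dsimp only
      by_cases h5 : src e ∈ Z ∧ dst e ∈ Z
      · rw [if_pos h5]
      · rw [if_neg h5]
        by_cases h6 : (src e ∈ Z ↔ dst e ∈ Z)
        · have h7 : src e ∉ Z := fun h => h5 ⟨h, h6.mp h⟩
          have h8 : dst e ∉ Z := fun h => h7 (h6.mpr h)
          have h9 : src e ≠ x := fun h => h7 (h ▸ hx)
          have h10 : dst e ≠ x := fun h => h8 (h ▸ hx)
          rw [if_neg h9, if_neg h10, if_neg h9, if_neg h10]
        · rw [hπ e (mem_filter.mpr ⟨mem_univ _, h6⟩) i]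
    · rw [← f1 i x, bd_contract_of_notMem src dst hz _ hx]
      unfold bd
      refine sum_congr rfl fun e _ => ?_
      dsimp only
      by_cases h5 : src e ∈ Z ∧ dst e ∈ Z
      · have h9 : src e ≠ x := fun h => hx (h ▸ h5.1)
        have h10 : dst e ≠ x := fun h => hx (h ▸ h5.2)
        rw [if_neg h9, if_neg h10, if_neg h9, if_neg h10]
      · rw [if_neg h5]
  · by_cases h5 : src e ∈ Z ∧ dst e ∈ Z
    · simp only [if_pos h5]
      rw [← g2 e]
      refine card_bij (fun i _ => π i) (fun i hi => ?_) (fun i _ j _ h => π.injective h)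
        (fun j hj => ⟨π.symm j, ?_, π.apply_symm_apply j⟩)
      · rw [mem_filter] at hi ⊢; exact ⟨mem_univ _, hi.2⟩
      · rw [mem_filter] at hj ⊢
        refine ⟨mem_univ _, ?_⟩
        rw [π.apply_symm_apply]; exact hj.2
    · simp only [if_neg h5]
      exact f2 e

end

end Pool.Agent.X24.QC
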